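import Mathlib
import Pool.Agent.Q47.TV.Loc

/-!
# Lower semicontinuity of minimal log discrepancies on finite quotients of toric pairs

`X` is a complex affine variety with function field `K = ℂ(y_1, ..., y_n)`, `B` an effective
`ℝ`-divisor on `X` with `K_X + B` `ℝ`-Cartier (`E x` is a local equation of it at the closed point
`x`), and `G` any finite group of automorphisms of the pair `(X, B)` (`IsAutX`), in general not
contained in a torus and not abelian. At the closed point `x` every `σ` in `G` which fixes `x` is
assumed to have a toric chart (`Chart`): an isomorphism of `X` with a principal open subset of an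
affine toric variety (of any cone, with or without torus factors), under which `(X, B)` becomes a
torus invariant pair and `σ` becomes a monomial automorphism. Different elements of `G` may need
different charts.

Let `Y = X / G`, and let `B_Y` be the boundary on `Y` with `K_X + B = π^* (K_Y + B_Y)`. The log
discrepancy of the prime divisor over `Y` below the prime divisor `v` over `X` is `b / r`, where `b` is
the log discrepancy of `v` and `r` the order of the inertia group of `v`. Hence `quotMld E G x` is the
minimal log discrepancy of `(Y, B_Y)` at the image of `x` (it is `- ∞` if `(Y, B_Y)` is not log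
canonical there).

Theorem: this function is lower semicontinuous at the image of `x`.
The proof is in `Pool/Agent/Q47/TV/Loc.lean` and `Pool/Agent/Q47/QM` of the starting library.
-/

set_option autoImplicit false

namespace Pool.Agent.Results.MP_f23696_ag.FiniteQuotients

open Pool.Agent.H436R3.Fol Pool.Agent.H436R3.KT Pool.Agent.W497.Mld Q47.TV

/-- **Lower semicontinuity of minimal log discrepancies on finite quotients.** Let `G` be a finite
group of automorphisms of the pair `(X, B)`, and let `x` be a closed point such that every element of
`G` which fixes `x` has a toric chart. Then the closed points `x'` of some principal open neighbourhood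
of `x` satisfy `mld_π(x') (X / G, B / G) ≥ mld_π(x) (X / G, B / G)`. -/
theorem result (n : ℕ) {K : Type} [Field K] [Algebra ℂ K]
    [Algebra (MvPolynomial (Fin n) ℂ) K] [IsFractionRing (MvPolynomial (Fin n) ℂ) K]
    [IsScalarTower ℂ (MvPolynomial (Fin n) ℂ) K] {X : AffVar K} {B : EffDiv X}
    (E : ∀ x : Pt X, LocEq B x) (G : Subgroup (K ≃ₐ[ℂ] K)) (hfin : Finite G)
    (hG : ∀ σ ∈ G, IsAutX E σ) (x : Pt X)
    (hx : ∀ σ ∈ G, FixesPt x σ → Nonempty (Chart n E σ)) :
    ∃ f : X.R, x f ≠ 0 ∧ ∀ x' : Pt X, x' f ≠ 0 → quotMld E G x ≤ quotMld E G x' :=
  lsc_loc G hG x hx

end Pool.Agent.Results.MP_f23696_ag.FiniteQuotients
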