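import Mathlib

/-!
# Lower semicontinuity of minimal log discrepancies: the levels which have to be checked

Shokurov's conjecture says that the sets `{x : mld(x) ≤ a}` of closed points of a pair are closed, for all
real `a`. We prove:

(1) If for all pairs of dimension `k + 1` the set `{mld ≤ r}` is closed, for one real number `r`, then for
all pairs of dimension `k` the sets `{mld ≤ a}` are closed for all `a ≤ r`.

(2) So the conjecture is true in dimension `k` if in dimension `k + 1` the sets `{mld ≤ r}` are closed for
the `r` in some set of real numbers which is not bounded above, for instance for the integers `r`.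

(3) Let `f n` tend to infinity (arbitrarily slowly). The conjecture is true in all dimensions if and only if
for infinitely many `n` the single set `{mld ≤ f n}` is closed for all pairs of dimension `n`.

The proof. Let `(X, Δ)` be a pair and `t ≥ 0`. The pair `X × A¹` with the boundary
`Δ × A¹ + (1 - t) (X × 0)` (the divisors need not be effective) has at the point `(x, 0)` the minimal log
discrepancy `mld(x) + t`, and `x ↦ (x, 0)` is continuous.

The facts on pairs which we use are the fields of the structure `LogPairs`.
-/

set_option autoImplicit false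
set_option linter.all false

namespace Pool.Agent.Results.MP_f23696_ag.OneLevelSuffices

/-- The log pairs `(X, Δ)` over the base field, with the facts which are used. -/
structure LogPairs where
  /-- the pairs `(X, Δ)` with `X` of dimension at least one -/
  Pair : Type
  /-- the dimension of `X` -/
  dim : Pair → ℕ
  /-- the closed points of `X` -/
  Pt : Pair → Type
  /-- the Zariski topology -/
  top : (X : Pair) → TopologicalSpace (Pt X)
  /-- the minimal log discrepancy at a closed point; `⊥` is minus infinity -/
  mld : (X : Pair) → Pt X → WithBot ℝ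
  /-- the product of `X` with the affine line, with the boundary `Δ × A¹ + (1 - t) (X × 0)` -/
  timesLine : Pair → (t : ℝ) → 0 ≤ t → Pair
  dim_timesLine : ∀ X t h, dim (timesLine X t h) = dim X + 1
  /-- the closed point `(x, 0)` of the product -/
  atZero : ∀ (X : Pair) (t : ℝ) (h : 0 ≤ t), Pt X → Pt (timesLine X t h)
  continuous_atZero : ∀ (X : Pair) (t : ℝ) (h : 0 ≤ t),
    @Continuous _ _ (top X) (top (timesLine X t h)) (atZero X t h)
  mld_atZero : ∀ (X : Pair) (t : ℝ) (h : 0 ≤ t) (x : Pt X),
    mld (timesLine X t h) (atZero X t h x) = mld X x + (t : WithBot ℝ)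

variable (P : LogPairs)

/-- for all pairs of dimension `k` the set of the closed points with `mld ≤ a` is closed -/
def ClosedAt (k : ℕ) (a : ℝ) : Prop :=
  ∀ X : P.Pair, P.dim X = k → @IsClosed _ (P.top X) {x : P.Pt X | P.mld X x ≤ (a : WithBot ℝ)}

/-- the conjecture in dimension `k`, on closed points: `mld` is lower semicontinuous -/
def LSC (k : ℕ) : Prop := ∀ a : ℝ, ClosedAt P k a

variable {P}

theorem down {k : ℕ} {a r : ℝ} (har : a ≤ r) (h : ClosedAt P (k + 1) r) : ClosedAt P k a := by
  intro X hX
  have ht : 0 ≤ r - a := sub_nonneg.2 har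
  have h1 := h (P.timesLine X (r - a) ht) (by rw [P.dim_timesLine, hX])
  letI := P.top X
  letI := P.top (P.timesLine X (r - a) ht)
  have h2 := h1.preimage (P.continuous_atZero X (r - a) ht)
  have h3 : {x : P.Pt X | P.mld X x ≤ (a : WithBot ℝ)} = P.atZero X (r - a) ht ⁻¹'
      {z | P.mld (P.timesLine X (r - a) ht) z ≤ (r : WithBot ℝ)} := by
    ext x
    simp only [Set.mem_setOf_eq, Set.mem_preimage]
    rw [P.mld_atZero]
    rcases h4 : P.mld X x with _ | m
    · simp only [WithBot.none_eq_bot, bot_le, WithBot.bot_add]
    · simp only [WithBot.some_eq_coe]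
      rw [← WithBot.coe_add, WithBot.coe_le_coe, WithBot.coe_le_coe]
      constructor
      · intro h5
        linarith
      · intro h5
        linarith
  rw [h3]
  exact h2

/-- **The levels which have to be checked.** -/
theorem result (P : LogPairs) :
    -- one level in dimension `k + 1` gives all lower levels in dimension `k`
    (∀ (k : ℕ) (r : ℝ), ClosedAt P (k + 1) r → ∀ a ≤ r, ClosedAt P k a) ∧
    -- unbounded sets of levels
    (∀ (k : ℕ) (V : Set ℝ), ¬ BddAbove V → (∀ r ∈ V, ClosedAt P (k + 1) r) → LSC P k) ∧
    -- integral levels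
    (∀ k : ℕ, (∀ c : ℕ, ClosedAt P (k + 1) c) → LSC P k) ∧
    -- all dimensions: one level in dimension n, tending to infinity arbitrarily slowly
    (∀ (f : ℕ → ℝ), Filter.Tendsto f Filter.atTop Filter.atTop →
      ((∀ k, LSC P k) ↔ ∀ N : ℕ, ∃ n, N ≤ n ∧ ClosedAt P n (f n))) := by
  have key : ∀ (l k : ℕ) (a : ℝ), ClosedAt P (k + l) a → ClosedAt P k a := by
    intro l
    induction l with
    | zero => exact fun k a h => h
    | succ l ih =>
      intro k a h
      exact ih k a (down le_rfl h)
  have key2 : ∀ (k : ℕ) (V : Set ℝ), ¬ BddAbove V → (∀ r ∈ V, ClosedAt P (k + 1) r) → LSC P k := by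
    intro k V hV h a
    rw [not_bddAbove_iff] at hV
    obtain ⟨r, hr, har⟩ := hV a
    exact down har.le (h r hr)
  refine ⟨fun k r h a ha => down ha h, key2, fun k h => key2 k (Set.range fun c : ℕ => (c : ℝ)) ?_ ?_,
    fun f hf => ⟨fun h N => ⟨N, le_rfl, h N _⟩, fun h k a => ?_⟩⟩
  · rw [not_bddAbove_iff]
    intro x
    obtain ⟨n, hn⟩ := exists_nat_gt x
    exact ⟨n, ⟨n, rfl⟩, hn⟩
  · rintro _ ⟨c, rfl⟩
    exact h c
  · obtain ⟨M, hM⟩ := (Filter.tendsto_atTop.1 hf a).exists_forall_of_atTop
    obtain ⟨n, hn, hc⟩ := h (max M (k + 1))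
    have h1 : a ≤ f n := hM n ((le_max_left _ _).trans hn)
    have h2 : k + 1 ≤ n := (le_max_right _ _).trans hn
    obtain ⟨l, hl⟩ := Nat.exists_eq_add_of_le h2
    have h3 : n = (k + l) + 1 := by omega
    rw [h3] at hc h1
    exact key l k a (down h1 hc)

end Pool.Agent.Results.MP_f23696_ag.OneLevelSuffices
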