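import Mathlib

/-!
# MP_f23696_ag: lower semicontinuity of minimal log discrepancies up to a sublinear error suffices

Q1 asks whether for every pair `(X, Δ)` the minimal log discrepancy is lower semicontinuous on the closed points of `X` (by the
problem file this is equivalent to the lower semicontinuity on the points of each dimension).

Theorem. (A) The minimal log discrepancy of a pair `(X, Δ)` is lower semicontinuous on the closed points if and only if for every
`ε > 0` there is a `k ≥ 1` such that the one of the `k`-th power `(X^k, Δ^(k))` is lower semicontinuous up to the error `ε k`: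
`mld(x) ≤ a + ε k` for all closed points `x` of `X^k` in the closure of the set of the closed points with `mld ≤ a`, for all `a`.

(B) Q1 is true if and only if for every `ε > 0` there are infinitely many `n` such that the minimal log discrepancies of all pairs
of dimension `n` are lower semicontinuous up to the error `ε n`.

Proof. Minimal log discrepancies of closed points are additive for products, and in the Zariski topology the closure of a product
of sets contains the product of the closures.
-/

set_option autoImplicit false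

namespace Pool.Agent.Results.MP_f23696_ag.SublinearErrorSuffices

/-- Pairs `(X, Δ)` as in the problem, over a fixed algebraically closed field of characteristic zero, `dim X ≥ 1`, with the
following data and known facts:

* `Pt X`: the set of the closed points, with the Zariski topology; `mld`: the minimal log discrepancies (`⊥` is `-∞`);
* `prod`: the product pair `(X × Y, p^*Δ_X + q^*Δ_Y)`, `join x y` its closed point with the coordinates `x` and `y`;
* `closure_join`: the point `(x, y)` is in the closure of `S × T` if `x` is in the closure of `S` and `y` in the closure of `T`;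
* `mld_join`: `mld(x, y) = mld(x) + mld(y)`;
* `aff m`: the affine space of dimension `m + 1` with `Δ = 0`, `orig m`: its origin, of minimal log discrepancy `m + 1`. -/
structure LogPairs where
  Pair : Type
  dim : Pair → ℕ
  dim_pos : ∀ X, 1 ≤ dim X
  Pt : Pair → Type
  [top : ∀ X : Pair, TopologicalSpace (Pt X)]
  mld : ∀ {X : Pair}, Pt X → WithBot ℝ
  prod : Pair → Pair → Pair
  join : ∀ {X Y : Pair}, Pt X → Pt Y → Pt (prod X Y)
  dim_prod : ∀ X Y, dim (prod X Y) = dim X + dim Y
  closure_join : ∀ {X Y : Pair} (S : Set (Pt X)) (T : Set (Pt Y)) (x : Pt X) (y : Pt Y),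
    x ∈ closure S → y ∈ closure T → join x y ∈ closure (Set.image2 join S T)
  mld_join : ∀ {X Y : Pair} (x : Pt X) (y : Pt Y), mld (join x y) = mld x + mld y
  aff : ℕ → Pair
  dim_aff : ∀ m, dim (aff m) = m + 1
  orig : ∀ m, Pt (aff m)
  mld_orig : ∀ m, mld (orig m) = ((m + 1 : ℝ) : WithBot ℝ)

attribute [instance] LogPairs.top

variable {P : LogPairs}

/-- The minimal log discrepancy is lower semicontinuous on the closed points. -/
def LowerSemicontinuous (X : P.Pair) : Prop :=
  ∀ a : ℝ, IsClosed {x : P.Pt X | P.mld x ≤ (a : WithBot ℝ)}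

/-- The minimal log discrepancy is lower semicontinuous on the closed points up to the error `r`. -/
def UpTo (r : ℝ) (X : P.Pair) : Prop :=
  ∀ (a : ℝ) (x : P.Pt X), x ∈ closure {y : P.Pt X | P.mld y ≤ (a : WithBot ℝ)} →
    P.mld x ≤ ((a + r : ℝ) : WithBot ℝ)

/-- `X^k × B` -/
def times (X B : P.Pair) : ℕ → P.Pair
  | 0 => B
  | k + 1 => P.prod X (times X B k)

/-- The `k`-th power `X^k` of `X`, for `k ≥ 1` (and `X` for `k = 0`). -/
def power (X : P.Pair) (k : ℕ) : P.Pair := times X X (k - 1)

/-- the point `(x, …, x, b)` -/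
def pt {X B : P.Pair} (x : P.Pt X) (b : P.Pt B) : ∀ k : ℕ, P.Pt (times X B k)
  | 0 => b
  | k + 1 => P.join x (pt x b k)

lemma dim_times (X B : P.Pair) (k : ℕ) : P.dim (times X B k) = k * P.dim X + P.dim B := by
  induction k with
  | zero => simp [times]
  | succ k ih => rw [times, P.dim_prod, ih]; ring

lemma mld_pt {X B : P.Pair} (x : P.Pt X) (b : P.Pt B) {t u : ℝ} (ht : P.mld x = (t : WithBot ℝ))
    (hu : P.mld b = (u : WithBot ℝ)) (k : ℕ) :
    P.mld (pt x b k) = ((k * t + u : ℝ) : WithBot ℝ) := by
  induction k with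
  | zero => exact hu.trans (by simp)
  | succ k ih =>
    refine (P.mld_join x (pt x b k)).trans ?_
    rw [ih, ht, ← WithBot.coe_add]
    congr 1
    push_cast
    ring

lemma pt_mem {X B : P.Pair} {a c : ℝ} {x : P.Pt X} {b : P.Pt B}
    (hx : x ∈ closure {y : P.Pt X | P.mld y ≤ (a : WithBot ℝ)})
    (hb : b ∈ closure {y : P.Pt B | P.mld y ≤ (c : WithBot ℝ)}) (k : ℕ) :
    pt x b k ∈ closure {z : P.Pt (times X B k) | P.mld z ≤ ((k * a + c : ℝ) : WithBot ℝ)} := by
  induction k with
  | zero =>
    refine closure_mono ?_ hb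
    intro y hy
    refine le_trans (show P.mld y ≤ (c : WithBot ℝ) from hy) ?_
    simp
  | succ k ih =>
    refine closure_mono ?_ (P.closure_join _ _ _ _ hx ih)
    rintro _ ⟨y, hy, z, hz, rfl⟩
    refine (P.mld_join y z).le.trans ?_
    calc P.mld y + P.mld z ≤ (a : WithBot ℝ) + ((k * a + c : ℝ) : WithBot ℝ) := add_le_add hy hz
      _ = (((k + 1 : ℕ) * a + c : ℝ) : WithBot ℝ) := by
        rw [← WithBot.coe_add]
        congr 1
        push_cast
        ring

/-- From `X^k × B` to `X`. -/
lemma descend {X B : P.Pair} {k : ℕ} {r : ℝ} (h : UpTo r (times X B k)) {a c : ℝ} {x : P.Pt X}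
    {b : P.Pt B} (hx : x ∈ closure {y : P.Pt X | P.mld y ≤ (a : WithBot ℝ)})
    (hb : b ∈ closure {y : P.Pt B | P.mld y ≤ (c : WithBot ℝ)}) {t u : ℝ}
    (ht : P.mld x = (t : WithBot ℝ)) (hu : P.mld b = (u : WithBot ℝ)) :
    k * t + u ≤ k * a + c + r := by
  have h1 := h _ _ (pt_mem hx hb k)
  rw [mld_pt x b ht hu] at h1
  exact WithBot.coe_le_coe.mp h1

lemma lsc_iff (X : P.Pair) : LowerSemicontinuous X ↔ UpTo 0 X := by
  constructor
  · intro h a x hx
    rw [(h a).closure_eq] at hx
    simpa using hx
  · intro h a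
    refine isClosed_of_closure_subset fun x hx => ?_
    simpa using h a x hx

lemma upTo_mono {X : P.Pair} {r s : ℝ} (hrs : r ≤ s) (h : UpTo r X) : UpTo s X := fun a x hx =>
  (h a x hx).trans (WithBot.coe_le_coe.mpr (by linarith))

/-- It suffices to bound the values by `a + δ` for all `δ > 0`. -/
lemma upTo_zero {X : P.Pair} (h : ∀ (a : ℝ) (x : P.Pt X),
    x ∈ closure {y : P.Pt X | P.mld y ≤ (a : WithBot ℝ)} → ∀ t : ℝ, P.mld x = (t : WithBot ℝ) →
    ∀ δ : ℝ, 0 < δ → t ≤ a + δ) : UpTo 0 X := by
  intro a x hx
  rcases hm : P.mld x with _ | t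
  · exact bot_le
  · refine WithBot.coe_le_coe.mpr ?_
    rw [add_zero]
    exact le_of_forall_pos_le_add (h a x hx t hm)

/-- **Theorem.** Let `P` be the pairs of the problem (of dimension at least one) with the known facts.

(A) The minimal log discrepancy of a pair `X` is lower semicontinuous on closed points if and only if for every `ε > 0` there is
a `k ≥ 1` such that the one of `X^k` is lower semicontinuous on closed points up to the error `ε k`.

(B) The minimal log discrepancies of all pairs are lower semicontinuous on closed points if and only if for all `ε > 0` and `N`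
there is an `n ≥ N` such that the ones of all pairs of dimension `n` are lower semicontinuous up to the error `ε n`. -/
theorem result (P : LogPairs) :
    (∀ X : P.Pair, LowerSemicontinuous X ↔
      ∀ ε : ℝ, 0 < ε → ∃ k : ℕ, 1 ≤ k ∧ UpTo (ε * k) (power X k)) ∧
    ((∀ X : P.Pair, LowerSemicontinuous X) ↔
      ∀ ε : ℝ, 0 < ε → ∀ N : ℕ, ∃ n : ℕ, N ≤ n ∧ ∀ X : P.Pair, P.dim X = n → UpTo (ε * n) X) := by
  refine ⟨fun X => ⟨fun h ε hε => ⟨1, le_rfl, ?_⟩, fun h => ?_⟩,
    fun h ε hε N => ⟨N, le_rfl, fun X _ => ?_⟩, fun h => ?_⟩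
  · exact upTo_mono (by simpa using hε.le) ((lsc_iff X).mp h)
  · rw [lsc_iff]
    refine upTo_zero fun a x hx t ht δ hδ => ?_
    obtain ⟨k, hk, hX⟩ := h δ hδ
    have h1 := descend hX hx hx ht ht
    have h2 : ((k - 1 : ℕ) : ℝ) = k - 1 := by
      rw [Nat.cast_sub hk]
      simp
    rw [h2] at h1
    have hk0 : (0 : ℝ) < k := by exact_mod_cast hk
    have h3 : k * t ≤ k * (a + δ) := by linarith
    exact le_of_mul_le_mul_left h3 hk0
  · exact upTo_mono (by positivity) ((lsc_iff X).mp (h X))
  · intro X
    rw [lsc_iff]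
    refine upTo_zero fun a x hx t ht δ hδ => ?_
    have hd := P.dim_pos X
    set d := P.dim X with hdef
    have hd0 : (0 : ℝ) < d := by exact_mod_cast hd
    obtain ⟨n, hn, hn'⟩ := h (δ / (2 * d)) (by positivity) (d + 1)
    set k := (n - 1) / d with hk
    have hk1 : 1 ≤ k := (Nat.one_le_div_iff (by omega)).mpr (by omega)
    have hnk : k * d + ((n - 1) % d + 1) = n := by
      have h8 := Nat.div_add_mod (n - 1) d
      have h9 : k * d = d * ((n - 1) / d) := by rw [hk, mul_comm]
      omega
    have h1 := hn' (times X (P.aff ((n - 1) % d)) k) (by rw [dim_times, ← hdef, P.dim_aff, hnk])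
    have hb : P.orig ((n - 1) % d) ∈ closure {y : P.Pt (P.aff ((n - 1) % d)) |
        P.mld y ≤ ((((n - 1) % d : ℕ) + 1 : ℝ) : WithBot ℝ)} :=
      subset_closure (P.mld_orig _).le
    have h2 := descend h1 hx hb ht (P.mld_orig _)
    have h3 : n ≤ 2 * (k * d) := by
      have h4 : (n - 1) % d < d := Nat.mod_lt _ (by omega)
      have h5 : d ≤ k * d := Nat.le_mul_of_pos_left _ (by omega)
      omega
    have h3' : (n : ℝ) ≤ 2 * (k * d) := by exact_mod_cast h3
    have h4 : δ / (2 * d) * n ≤ k * δ := by
      calc δ / (2 * d) * n ≤ δ / (2 * d) * (2 * (k * d)) :=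
            mul_le_mul_of_nonneg_left h3' (by positivity)
        _ = k * δ := by field_simp
    have hk0 : (0 : ℝ) < k := by exact_mod_cast hk1
    have h5 : k * t ≤ k * (a + δ) := by linarith
    exact le_of_mul_le_mul_left h5 hk0

end Pool.Agent.Results.MP_f23696_ag.SublinearErrorSuffices
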